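import Pool.Agent.R93.TotDom.Large

set_option autoImplicit false

/-!
Fractional total domatic number of connected claw-free graphs of minimum degree at least two:
`FTD(G) ≥ 2 - 4/(n+2)`, hence `FTD(G) ≥ 2 - o(1)`.
-/

namespace Pool.Agent.Results.MP_7cc102_co.LargeOrder

open R93.TotDom

universe u

/-- Every connected claw-free graph `G` of order `n` and minimum degree at least two satisfies
`FTD(G) ≥ 2 - 4/(n+2)`; in particular for every `ε > 0` all large enough such graphs satisfy
`FTD(G) ≥ 2 - ε`. -/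
theorem result :
    (∀ (V : Type u) [Fintype V] (G : SimpleGraph V), G.Connected → ClawFree G →
      (∀ v, 2 ≤ (G.neighborSet v).ncard) →
        2 - 4 / ((Fintype.card V : ℝ) + 2) ≤ FTD G) ∧
    (∀ ε : ℝ, 0 < ε → ∃ N : ℕ, ∀ (V : Type u) [Fintype V] (G : SimpleGraph V),
      G.Connected → ClawFree G → (∀ v, 2 ≤ (G.neighborSet v).ncard) → N ≤ Fintype.card V →
        2 - ε ≤ FTD G) := by
  have h1 : ∀ (V : Type u) [Fintype V] (G : SimpleGraph V), G.Connected → ClawFree G →
      (∀ v, 2 ≤ (G.neighborSet v).ncard) →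
        2 - 4 / ((Fintype.card V : ℝ) + 2) ≤ FTD G := by
    intro V _ G hconn hc hd
    classical
    refine FTD_ge hconn hc (fun v => ?_)
    have h2 : G.neighborSet v = ((nb G v : Finset V) : Set V) := by
      ext w; simp
    have h3 := hd v
    rw [h2, Set.ncard_coe_finset] at h3
    exact h3
  refine ⟨h1, fun ε hε => ?_⟩
  obtain ⟨N, hN⟩ := exists_nat_gt (4 / ε)
  refine ⟨N, fun V _ G hconn hc hd hV => le_trans ?_ (h1 V G hconn hc hd)⟩
  have h4 : (N : ℝ) ≤ Fintype.card V := by exact_mod_cast hV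
  have h5 : 4 / ((Fintype.card V : ℝ) + 2) ≤ ε := by
    rw [div_le_iff₀ (by positivity)]
    rw [div_lt_iff₀ hε] at hN
    nlinarith
  linarith

end Pool.Agent.Results.MP_7cc102_co.LargeOrder
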