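import Pool.Agent.R93.TotDom.Cycle

set_option autoImplicit false

/-!
Connected claw-free graphs of minimum degree at least three: the vertex set can be partitioned into
two total dominating sets, so `FTD(G) ≥ 2`.
-/

namespace Pool.Agent.Results.MP_7cc102_co.MinDegreeThree

open R93.TotDom

universe u

/-- Every connected claw-free graph `G` with minimum degree at least three has a partition of its
vertex set into two total dominating sets; in particular `FTD(G) ≥ 2`. -/
theorem result (V : Type u) [Fintype V] [DecidableEq V] (G : SimpleGraph V)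
    (hconn : G.Connected) (hc : ClawFree G) (hd : ∀ v, 3 ≤ (G.neighborSet v).ncard) :
    (∃ A : Finset V, IsTD G A ∧ IsTD G Aᶜ) ∧ 2 ≤ FTD G := by
  classical
  have hd' : ∀ v, 3 ≤ (nb G v).card := by
    intro v
    have h2 : G.neighborSet v = ((nb G v : Finset V) : Set V) := by
      ext w; simp
    have h3 := hd v
    rw [h2, Set.ncard_coe_finset] at h3
    exact h3
  have : Nonempty V := hconn.nonempty
  obtain ⟨c, hcol⟩ := exists_happy hconn hc hd'
  refine ⟨⟨Finset.univ.filter (fun v => c v = true), ?_, ?_⟩, two_le_FTD_of_happy hcol⟩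
  · intro v
    obtain ⟨a, b, ha, hb, hab⟩ := hcol v
    cases hca : c a
    · refine ⟨b, ?_, hb⟩
      rw [hca] at hab
      simpa using hab.symm
    · exact ⟨a, by simp [hca], ha⟩
  · intro v
    obtain ⟨a, b, ha, hb, hab⟩ := hcol v
    cases hca : c a
    · exact ⟨a, by simp [hca], ha⟩
    · refine ⟨b, ?_, hb⟩
      rw [hca] at hab
      simpa using hab.symm

end Pool.Agent.Results.MP_7cc102_co.MinDegreeThree
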